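import Pool.Agent.Helper7.OV.Goals2

/-!
# Project OV, packet WRD: all derivatives of order at most `t/300` vanish
-/

set_option autoImplicit false

open Finset

namespace Pool.Agent.Helper54.OV.WRD

open Pool.Agent.Helper7.OV

theorem good_opw (hI : InvF) (s t : ℕ) (hts : t ≤ s) (d : ℤ) (w : List Bool) :
    ∀ (S : ℤ) (a : T3), Good s t d S a →
      Good s t d (S + (w.length : ℤ) * (t + 2 * s)) (opw w a) := by
  induction w with
  | nil => intro S a h; simpa [opw] using h
  | cons b w ih =>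
    intro S a h
    have h2 := hI s t d S a hts h
    have e : S + (((b :: w).length : ℕ) : ℤ) * (t + 2 * s) = (S + t + 2 * s) + (w.length : ℤ) * (t + 2 * s) := by
      rw [List.length_cons]; push_cast; ring
    rw [e]
    cases b with
    | true => exact ih _ _ h2.1
    | false => exact ih _ _ h2.2

theorem log_le_of (x y : ℝ) (hx : 0 ≤ x) (hy : 1 ≤ y) (h : x ≤ y) : Real.log x ≤ Real.log y := by
  rcases hx.eq_or_lt with h0 | h0
  · rw [← h0, Real.log_zero]; exact Real.log_nonneg hy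
  · exact Real.log_le_log h0 h

theorem t : S_WRD := by
  intro hLEN hDEG hOPL hI hV K0
  have hO := hOPL hLEN hDEG
  set K1 : ℕ := max K0 1 with hK1
  have hK1a : 1 ≤ K1 := le_max_right _ _
  have hK1b : K0 ≤ K1 := le_max_left _ _
  refine ⟨100 * (25206 + 45 * K1), ?_⟩
  intro s t p q w1 w2 d S a hS hs hG hS2 hD hq w hw
  have ht := hS.ht
  have hts := hS.hts
  set n := w.length with hn
  have hG2 := good_opw hI s t hts d w S a hG
  rcases hV s t p q w1 w2 d _ _ hS hG2 with h | h
  · exact h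
  exfalso
  have htR : (1 : ℝ) ≤ t := by exact_mod_cast ht
  have hsR : (1 : ℝ) ≤ s := by exact_mod_cast le_trans ht hts
  have htsR : (t : ℝ) ≤ s := by exact_mod_cast hts
  have hKR : (1 : ℝ) ≤ K1 := by exact_mod_cast hK1a
  have hnR : 300 * (n : ℝ) ≤ t := by exact_mod_cast hw
  have hn0 : (0 : ℝ) ≤ n := Nat.cast_nonneg _
  have hlt : 0 ≤ Real.log t := Real.log_nonneg htR
  have hlq : 0 < Real.log q := by
    have h3 := hS.h3
    have h4 := hS.hpq
    apply Real.log_pos
    exact_mod_cast (by omega : 1 < q)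
  -- the left side
  have hL : (t : ℝ) / 100 ≤ (2 * (s : ℝ) * t + 2 * (t : ℝ) ^ 2 - ((S + (n : ℤ) * (t + 2 * s) : ℤ) : ℝ)) / s := by
    rw [le_div_iff₀ (by linarith)]
    have h1 : (100 : ℝ) * S ≤ 198 * s * t + 200 * (t : ℝ) ^ 2 := by exact_mod_cast hS2
    push_cast
    have h2 : (n : ℝ) * (t + 2 * s) ≤ n * (3 * s) := by
      apply mul_le_mul_of_nonneg_left _ hn0
      linarith
    have h3 : 300 * (n : ℝ) * s ≤ t * s := by
      apply mul_le_mul_of_nonneg_right hnR (by linarith)
    nlinarith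
  -- the lengths
  have hlen : ∀ i, len (opw w a i) ≤ (40 * K1 * t) ^ n * K1 ^ t := by
    intro i
    refine le_trans (hO a (K0 * t) (K0 ^ t) n hD w (le_of_eq hn.symm) i).2 ?_
    apply Nat.mul_le_mul
    · apply Nat.pow_le_pow_left
      have h1 : K0 * t ≤ K1 * t := Nat.mul_le_mul_right _ hK1b
      have h2 : t ≤ K1 * t := Nat.le_mul_of_pos_left _ hK1a
      have h3 : 40 * K1 * t = 40 * (K1 * t) := by ring
      omega
    · exact Nat.pow_le_pow_left hK1b _
  have hsum : ((len (opw w a 0) : ℝ) + len (opw w a 1) + len (opw w a 2)) ≤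
      3 * ((40 * K1 * t) ^ n * K1 ^ t) := by
    have h0 : (len (opw w a 0) : ℝ) ≤ (40 * K1 * t) ^ n * K1 ^ t := by exact_mod_cast hlen 0
    have h1 : (len (opw w a 1) : ℝ) ≤ (40 * K1 * t) ^ n * K1 ^ t := by exact_mod_cast hlen 1
    have h2 : (len (opw w a 2) : ℝ) ≤ (40 * K1 * t) ^ n * K1 ^ t := by exact_mod_cast hlen 2
    linarith
  have hsK : (s : ℝ) ≤ K1 * t := by
    have : s ≤ K1 * t := le_trans hs (Nat.mul_le_mul_right _ hK1b)
    exact_mod_cast this
  have hKt : (1 : ℝ) ≤ K1 * t := one_le_mul_of_one_le_of_one_le hKR htR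
  have hX : 8400 * (s : ℝ) ^ 4 * ((len (opw w a 0) : ℝ) + len (opw w a 1) + len (opw w a 2)) ≤
      25200 * (K1 * t) ^ 4 * ((40 * K1 * t) ^ n * K1 ^ t) := by
    have h1 : (s : ℝ) ^ 4 ≤ (K1 * t) ^ 4 := pow_le_pow_left₀ (by linarith) hsK 4
    have h2 : 8400 * (s : ℝ) ^ 4 ≤ 8400 * (K1 * t) ^ 4 := by linarith
    have h3 := mul_le_mul h2 hsum (by positivity) (by positivity)
    refine le_trans h3 (le_of_eq (by ring))
  have hY1 : (1 : ℝ) ≤ 25200 * (K1 * t) ^ 4 * ((40 * K1 * t) ^ n * K1 ^ t) := by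
    have h1 : (1 : ℝ) ≤ (K1 * t) ^ 4 := one_le_pow₀ hKt
    have h2 : (1 : ℝ) ≤ (40 * K1 * t) ^ n := by
      apply one_le_pow₀
      nlinarith
    have h3 : (1 : ℝ) ≤ (K1 : ℝ) ^ t := one_le_pow₀ hKR
    have h4 : (1 : ℝ) ≤ (40 * K1 * t) ^ n * K1 ^ t := one_le_mul_of_one_le_of_one_le h2 h3
    have h5 : (1 : ℝ) ≤ 25200 * (K1 * t) ^ 4 := by linarith
    exact one_le_mul_of_one_le_of_one_le h5 h4
  have hlog := log_le_of _ _ (by positivity) hY1 hX
  have hlogY : Real.log (25200 * (K1 * t) ^ 4 * ((40 * K1 * t) ^ n * K1 ^ t)) ≤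
      (25205 + 45 * K1) * t * (1 + Real.log t) := by
    have hK0' : (K1 : ℝ) ≠ 0 := by positivity
    have ht0' : (t : ℝ) ≠ 0 := by positivity
    rw [Real.log_mul (by positivity) (by positivity), Real.log_mul (by positivity) (by positivity),
      Real.log_mul (by positivity) (by positivity), Real.log_pow, Real.log_pow, Real.log_pow,
      Real.log_mul (by positivity) (by positivity), Real.log_mul (by positivity) (by positivity)]
    have a1 : Real.log 25200 ≤ 25200 := (Real.log_le_sub_one_of_pos (by norm_num)).trans (by norm_num)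
    have a2 : Real.log K1 ≤ K1 := (Real.log_le_sub_one_of_pos (by positivity)).trans (by linarith)
    have a3 : Real.log (40 * K1) ≤ 40 * K1 := (Real.log_le_sub_one_of_pos (by positivity)).trans (by linarith)
    have hnt : (n : ℝ) ≤ t := by linarith
    have b1 : (n : ℝ) * (Real.log (40 * K1) + Real.log t) ≤ t * (40 * K1 + Real.log t) := by
      apply mul_le_mul hnt (by linarith) _ (by linarith)
      have : 0 ≤ Real.log (40 * K1) := Real.log_nonneg (by nlinarith)
      linarith
    have b2 : (t : ℝ) * Real.log K1 ≤ t * K1 := mul_le_mul_of_nonneg_left a2 (by linarith)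
    push_cast
    set l := Real.log t with hl
    have c1 : (0 : ℝ) ≤ t * l := mul_nonneg (by linarith) hlt
    have c2 : l ≤ t * l := by nlinarith
    have c3 : (K1 : ℝ) ≤ K1 * t := by nlinarith
    have c4 : 0 ≤ K1 * (t * l) := mul_nonneg (by linarith) c1
    nlinarith
  have hfin := (mul_le_mul_of_nonneg_right hL hlq.le).trans (h.trans (hlog.trans hlogY))
  push_cast at hq
  have h1 : (t : ℝ) * Real.log q ≤ t * (100 * (25205 + 45 * K1) * (1 + Real.log t)) := by linarith
  have h2 : Real.log q ≤ 100 * (25205 + 45 * K1) * (1 + Real.log t) :=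
    le_of_mul_le_mul_left h1 (by linarith)
  nlinarith

end Pool.Agent.Helper54.OV.WRD
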